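import Pool.Agent.Helper58.SF.StB

/-!
# Project SF (MP_a45945_gt), module EXW: small cycles in a level with winding number one
-/

set_option autoImplicit false

namespace Pool.Agent.Helper1.SF

open Set Topology Pool.Agent.Helper13.TR Pool.Agent.Helper58.SF
open Pool.Agent.Helper13.TW (IsArc Spl IsSCC dch Chn Splt GT CSy MP Val LR MCell StARB StARX
  StSCL StUAR StINF StLIN StAC1 StSDM)

section aux

variable {P : Type} [TopologicalSpace P]

private theorem push_id (n : ℕ) (c : Ch P n) : push (ContinuousMap.id P) n c = c := by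
  unfold push
  have h1 : (fun σ : Sx P n => (ContinuousMap.id P).comp σ) = id := by
    funext σ
    exact ContinuousMap.id_comp σ
  rw [h1, Finsupp.lmapDomain_id]
  rfl

/-- a point of the line of `a` at the level of `a` or above is above `a` -/
private theorem mem_up {r : P → ℝ} {R : ℝ → P → P} (hF : Flow P r R) {a y : P}
    (h : y ∈ Ln r R a) (hy : r a ≤ r y) : R (r a) y = a := by
  rcases h with h | h
  · exact h.2
  · have h1 : r y = r a := le_antisymm h.1 hy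
    have h2 : R (r y) a = y := h.2
    rw [h1, hF.Rid (r a) a le_rfl] at h2
    rw [← h2]
    exact hF.Rid (r a) a le_rfl

private theorem eq_of_level {r : P → ℝ} {R : ℝ → P → P} (hF : Flow P r R) {a y : P}
    (h : y ∈ Ln r R a) (hy : r y = r a) : y = a := by
  have h1 := mem_up hF h hy.ge
  rw [hF.Rid (r a) y hy.le] at h1
  exact h1

private theorem not_mem_of {r : P → ℝ} {R : ℝ → P → P} (hF : Flow P r R) {a y : P} {s : ℝ}
    (h : y ∉ Ln r R a) (hy : r a ≤ r y) (hs : r a ≤ s) : R s y ∉ Ln r R a := by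
  intro h1
  have h2 : r a ≤ r (R s y) := by
    rw [hF.rR s y (lt_of_lt_of_le (hF.pos a) hs)]
    exact le_min hs hy
  have h3 := mem_up hF h1 h2
  rw [hF.RR (r a) s y (hF.pos a) hs] at h3
  exact h (Or.inl ⟨hy, h3⟩)

/-- the homotopy from the identity to `R t` -/
private noncomputable def hmt {r : P → ℝ} {R : ℝ → P → P} (hF : Flow P r R) (t : ℝ) (ht : 0 < t)
    (hc : Continuous (R t)) : (ContinuousMap.id P).Homotopy (⟨R t, hc⟩ : C(P, P)) where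
  toFun p := R ((1 - (p.1 : ℝ)) + (p.1 : ℝ) * t) p.2
  continuous_toFun := by
    have h1 : Continuous fun p : unitInterval × P =>
        ((((1 - (p.1 : ℝ)) + (p.1 : ℝ) * t), p.2) : ℝ × P) := by fun_prop
    refine hF.Rc.comp_continuous h1 ?_
    intro p
    change 0 < (1 - (p.1 : ℝ)) + (p.1 : ℝ) * t
    have h2 := p.1.2.1
    have h3 := p.1.2.2
    rcases eq_or_lt_of_le h2 with h4 | h4
    · rw [← h4]
      norm_num
    · have h5 : 0 < (p.1 : ℝ) * t := mul_pos h4 ht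
      linarith
  map_zero_left y := by
    change R ((1 - ((0 : unitInterval) : ℝ)) + ((0 : unitInterval) : ℝ) * t) y = y
    have h1 : ((1 - ((0 : unitInterval) : ℝ)) + ((0 : unitInterval) : ℝ) * t) = 1 := by
      simp
    rw [h1]
    exact hF.Rid 1 y (hF.lt y).le
  map_one_left y := by
    change R ((1 - ((1 : unitInterval) : ℝ)) + ((1 : unitInterval) : ℝ) * t) y = R t y
    have h1 : ((1 - ((1 : unitInterval) : ℝ)) + ((1 : unitInterval) : ℝ) * t) = t := by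
      simp
    rw [h1]

private theorem hmt_apply {r : P → ℝ} {R : ℝ → P → P} (hF : Flow P r R) (t : ℝ) (ht : 0 < t)
    (ht1 : t ≤ 1) (hc : Continuous (R t)) (u : unitInterval) (y : P) :
    ∃ s : ℝ, t ≤ s ∧ hmt hF t ht hc (u, y) = R s y := by
  refine ⟨(1 - (u : ℝ)) + (u : ℝ) * t, ?_, rfl⟩
  have h2 := u.2.1
  have h3 := u.2.2
  nlinarith

end aux

/-- MODULE EXW. -/
theorem hEXW (hOMB : StOMB) (hOMA : StOMA) (hSM : StSM) (hMV : StMV) (hPRI : StPRI)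
    (hPSH : StPSH) (hMON : StMON) (hSDA : StSDA) (hDEG : StDEG) (hFLW : StFLW) : StEXW := by
  intro P _ r R dg hG a O hO haO
  have hmet : TopologicalSpace.MetrizableSpace P := hG.met
  have hT2 : T2Space P := inferInstance
  have hF : Flow P r R := hG.box.toFlow
  obtain ⟨hRc, -, hcl, -, -, -, -, -⟩ := hFLW P r R hF
  obtain ⟨hcU, hcD, hcL, hUD, -, haU, haD⟩ := hcl a
  obtain ⟨mmono, minf, muniv, mbd, mcn, -⟩ := hMON P
  obtain ⟨hdd, -⟩ := hSDA P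
  have ht : 0 < r a := hF.pos a
  have ht1 : r a < 1 := hF.lt a
  have haL : a ∈ Ln r R a := Or.inl haU
  -- step 1
  obtain ⟨τ, hτ, hτ1⟩ := hG.ws.cls {a} isCompact_singleton
  have hτa : dg a τ = 1 := hτ1 a rfl
  -- step 2
  obtain ⟨-, hMV2, -⟩ := hMV P (Up r R a) (Dn r R a) hcU hcD 2
  rw [hUD] at hMV2
  obtain ⟨τ', σ, hττ, hσ, hMVR⟩ := hMV2 τ hτ
  -- step 3
  obtain ⟨⟨-, -, hPPD⟩, -, hOMA3, -⟩ := hOMA P r R dg hG.toSB a
  have hτ'c : τ' ∈ Cyc {a} 3 := hOMA3 τ' σ hMVR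
  obtain ⟨hD1, -⟩ := hDEG P dg hG.ws
  obtain ⟨-, hsub, -⟩ := hD1 a
  have hτ'a : dg a τ' = 1 := by
    have h1 := hsub τ hτ τ' hτ'c
    rw [hG.ws.nul a _ hττ, hτa] at h1
    omega
  -- step 4
  obtain ⟨hOMB1, -, -, -, hOMB5⟩ := hOMB P r R dg hG
  have hσ' : bd 1 σ ∈ cin (Ln r R a)ᶜ 1 := hσ
  have hW0 : Wd (Up r R) (Dn r R) dg (bd 1 σ) a = 1 := by
    rw [hOMB1 σ a hσ' τ' hMVR, hτ'a]
  have hσD : σ ∈ Nul (Dn r R a) 2 := by
    refine hPPD ?_
    exact (mcn (Dn r R a) (Ln r R a) 2 (fun y hy => Or.inr hy)).1 hσ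
  obtain ⟨ρ, hρ, β', hβ', hρβ⟩ := Submodule.mem_sup.mp hσD
  obtain ⟨β, rfl⟩ := hβ'
  have hbρ : bd 1 ρ = bd 1 σ := by
    rw [← hρβ, map_add, hdd, add_zero]
  -- step 6, 7
  have hO1 : IsOpen {y : P | r a < r y} := isOpen_lt continuous_const hF.rc
  have hO2 : IsOpen (Ln r R a)ᶜ := hcL.isOpen_compl
  have hsubs : (Dn r R a)ᶜ ⊆ {y : P | r a < r y} ∪ (Ln r R a)ᶜ := by
    intro y hy
    by_cases h1 : r a < r y
    · exact Or.inl h1
    · refine Or.inr fun h2 => hy ?_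
      rcases h2 with h2 | h2
      · have h3 : r y = r a := le_antisymm (not_lt.mp h1) h2.1
        have h4 : y = a := eq_of_level hF (Or.inl h2) h3
        rw [h4]
        exact haD
      · exact h2
  have hρ1 : ρ ∈ cin ({y : P | r a < r y} ∪ (Ln r R a)ᶜ) 2 := mmono _ _ 2 hsubs hρ
  have hbρL : bd 1 ρ ∈ cin (Ln r R a)ᶜ 1 := by
    rw [hbρ]
    exact hσ'
  obtain ⟨σ₁, hσ₁, σ₂, hσ₂, f, -, hρe⟩ := hSM P {y : P | r a < r y} (Ln r R a)ᶜ hO1 hO2 2 ρ hρ1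
    (Submodule.mem_sup_right hbρL)
  have hbσ₁ : bd 1 σ₁ = bd 1 ρ - bd 1 σ₂ := by
    rw [hρe, map_add, map_add, hdd]
    abel
  have hbσ₁L : bd 1 σ₁ ∈ cin (Ln r R a)ᶜ 1 := by
    rw [hbσ₁]
    exact Submodule.sub_mem _ hbρL (mbd _ 1 σ₂ hσ₂)
  have hbσ₁I : bd 1 σ₁ ∈ cin ({y : P | r a < r y} ∩ (Ln r R a)ᶜ) 1 := by
    rw [← minf]
    exact ⟨mbd _ 1 σ₁ hσ₁, hbσ₁L⟩
  have hW1 : Wd (Up r R) (Dn r R) dg (bd 1 σ₁) a = 1 := by
    rw [← hOMB5 ρ σ₁ a hbρL hbσ₁L ?_, hbρ, hW0]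
    have h1 : ρ - σ₁ = σ₂ + bd 2 f := by
      rw [hρe]
      abel
    rw [h1]
    exact Submodule.add_mem_sup hσ₂ ⟨f, rfl⟩
  -- step 8
  have hRa : Continuous (R (r a)) := hRc (r a) ht
  obtain ⟨pbd, pcomp, pcin, -, -, -⟩ := hPSH P P P (⟨R (r a), hRa⟩ : C(P, P))
    (ContinuousMap.id P)
  have he'S : push (⟨R (r a), hRa⟩ : C(P, P)) 2 σ₁ ∈ cin {y : P | r y = r a} 2 := by
    refine pcin {y : P | r y = r a} 2 σ₁ (mmono _ _ 2 ?_ hσ₁)
    intro y hy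
    change r (R (r a) y) = r a
    rw [hF.rR (r a) y ht]
    exact min_eq_left (le_of_lt hy)
  obtain ⟨Pr, -, hPr1, hPr2⟩ := hPRI P P (ContinuousMap.id P) (⟨R (r a), hRa⟩ : C(P, P))
    (hmt hF (r a) ht hRa)
  have hdiff : push (⟨R (r a), hRa⟩ : C(P, P)) 2 σ₁ - σ₁ ∈ Nul (Ln r R a) 2 := by
    have h1 := hPr1 1 σ₁
    rw [push_id] at h1
    rw [← h1, add_comm]
    refine Submodule.add_mem_sup ?_ ⟨Pr 2 σ₁, rfl⟩
    refine mmono _ _ 2 ?_ (hPr2 _ 1 (bd 1 σ₁) hbσ₁I)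
    rintro y ⟨x, hx, u, hu⟩
    obtain ⟨s, hs, hs'⟩ := hmt_apply hF (r a) ht ht1.le hRa u x
    rw [← hu, hs']
    exact not_mem_of hF hx.2 (le_of_lt hx.1) hs
  have hbe' : bd 1 (push (⟨R (r a), hRa⟩ : C(P, P)) 2 σ₁) ∈ cin (Ln r R a)ᶜ 1 := by
    rw [pbd 1 σ₁]
    refine pcin (Ln r R a)ᶜ 1 (bd 1 σ₁) (mmono _ _ 1 ?_ hbσ₁I)
    intro y hy
    exact not_mem_of hF hy.2 (le_of_lt hy.1) le_rfl
  have hW2 : Wd (Up r R) (Dn r R) dg (bd 1 (push (⟨R (r a), hRa⟩ : C(P, P)) 2 σ₁)) a = 1 := by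
    rw [hOMB5 _ σ₁ a hbe' hbσ₁L hdiff, hW1]
  -- step 9
  generalize push (⟨R (r a), hRa⟩ : C(P, P)) 2 σ₁ = e' at *
  let i : C(↥{y : P | r y = r a}, P) := ⟨Subtype.val, continuous_subtype_val⟩
  have hinj : Function.Injective i := Subtype.val_injective
  have hemb : IsEmbedding i := IsEmbedding.subtypeVal
  obtain ⟨ibd, -, icin, -, ifac, iref⟩ := hPSH ↥{y : P | r y = r a} P P i (ContinuousMap.id P)
  have himg : i '' univ = {y : P | r y = r a} := by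
    rw [image_univ]
    exact Subtype.range_val
  obtain ⟨e'', -, he''⟩ := ifac hemb univ 2 e' (by rw [himg]; exact he'S)
  have hbe'' : bd 1 e'' ∈ cin ({⟨a, rfl⟩} : Set ↥{y : P | r y = r a})ᶜ 1 := by
    have h1 : push i 1 (bd 1 e'') ∈ cin ({a} : Set P)ᶜ 1 := by
      rw [← ibd 1 e'', he'']
      refine mmono _ _ 1 ?_ hbe'
      intro y hy h2
      rw [mem_singleton_iff] at h2
      rw [h2] at hy
      exact hy haL
    refine (hMON _).1 _ _ 1 ?_ (iref hinj _ 1 _ h1)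
    intro y hy h2
    rw [mem_singleton_iff] at h2
    apply hy
    rw [h2]
    rfl
  have hOi : IsOpen (i ⁻¹' O) := hO.preimage i.continuous
  have hO2i : IsOpen ({⟨a, rfl⟩} : Set ↥{y : P | r y = r a})ᶜ := isClosed_singleton.isOpen_compl
  have hun : i ⁻¹' O ∪ ({⟨a, rfl⟩} : Set ↥{y : P | r y = r a})ᶜ = univ := by
    refine eq_univ_of_forall fun y => ?_
    by_cases h1 : y = ⟨a, rfl⟩
    · refine Or.inl ?_
      rw [h1]
      exact haO
    · exact Or.inr h1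
  obtain ⟨e₁', he₁', e₂', he₂', f', -, he''e⟩ := hSM _ (i ⁻¹' O)
    ({⟨a, rfl⟩} : Set ↥{y : P | r y = r a})ᶜ hOi hO2i 2 e''
    (by rw [hun, (hMON _).2.2.1]; exact Submodule.mem_top) (Submodule.mem_sup_right hbe'')
  have he₁ : push i 2 e₁' ∈ cin ({y : P | r y = r a} ∩ O) 2 := by
    refine icin _ 2 e₁' ((hMON _).1 _ _ 2 ?_ he₁')
    intro y hy
    exact ⟨y.2, hy⟩
  have he₂ : push i 2 e₂' ∈ cin (Ln r R a)ᶜ 2 := by
    refine icin _ 2 e₂' ((hMON _).1 _ _ 2 ?_ he₂')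
    intro y hy h2
    exact hy (Subtype.ext (eq_of_level hF h2 y.2))
  have hsum : e' = push i 2 e₁' + push i 2 e₂' + bd 2 (push i 3 f') := by
    rw [← he'', he''e, map_add, map_add, ← ibd 2 f']
  have hbe₁ : bd 1 (push i 2 e₁') ∈ cin (Ln r R a)ᶜ 1 := by
    have h1 : bd 1 (push i 2 e₁') = bd 1 e' - bd 1 (push i 2 e₂') := by
      rw [hsum, map_add, map_add, hdd]
      abel
    rw [h1]
    exact Submodule.sub_mem _ hbe' (mbd _ 1 _ he₂)
  refine ⟨push i 2 e₁', he₁, ?_, ?_⟩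
  · refine mmono _ _ 1 ?_ hbe₁
    intro y hy h2
    rw [mem_singleton_iff] at h2
    rw [h2] at hy
    exact hy haL
  · rw [← hOMB5 e' (push i 2 e₁') a hbe' hbe₁ ?_, hW2]
    have h1 : e' - push i 2 e₁' = push i 2 e₂' + bd 2 (push i 3 f') := by
      rw [hsum]
      abel
    rw [h1]
    exact Submodule.add_mem_sup he₂ ⟨_, rfl⟩

end Pool.Agent.Helper1.SF
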